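import Mathlib
import Pool.Agent.R439.PSix

set_option autoImplicit false

namespace Pool.Agent.Results.MP_e70f96_nt.SixKMinusOne

open Finset Pool.Agent.R439 Pool.Agent.R439.PL

/-- The rising factorial `(a)_k`. -/
def rise (a : ℚ) (k : ℕ) : ℚ := ∏ i ∈ range k, (a + i)

/-- The sum `S(p)` of the problem. -/
def S (p : ℕ) : ℚ :=
  ∑ k ∈ range ((p + 1) / 3 + 1), (6 * k - 1) *
    (rise (-1 / 3) k ^ 4 * ((2 * k).factorial : ℚ) /
      ((k.factorial : ℚ) ^ 4 * rise (-2 / 3) (2 * k)))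

theorem S_two : S 2 = -14 / 9 := by
  norm_num [S, rise, sum_range_succ, prod_range_succ, Nat.factorial]

/-- **Answer to Q1**: for every prime `p ≡ 2 (mod 3)`, the rational number `(S(p) - p)/p^3` has
denominator prime to `p`. -/
theorem result : ∀ p : ℕ, p.Prime → p % 3 = 2 → ¬ p ∣ ((S p - p) / (p : ℚ) ^ 3).den := by
  intro p hp h1
  haveI : Fact p.Prime := ⟨hp⟩
  have hp2 := hp.two_le
  by_cases h2 : p = 2
  · subst h2
    have e : (S 2 - ((2 : ℕ) : ℚ)) / ((2 : ℕ) : ℚ) ^ 3 = -4 / 9 := by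
      rw [S_two]; norm_num
    rw [e]
    have : ((-4 : ℚ) / 9).den = 9 := by norm_num
    rw [this]; norm_num
  have h5 : 5 ≤ p := by
    have h3 : p ≠ 3 := by rintro rfl; omega
    have h4 : p ≠ 4 := by rintro rfl; omega
    omega
  set M := (p + 1) / 3 with hM
  have hpM : (p : ℤ) = 3 * M + (-1) := by omega
  have h := main (p := p) (M := M) (r := -1) (Or.inr rfl) hpM h5
  refine den_of_I ?_
  have e : S p = ∑ k ∈ range (M + 1), TT ((-1 : ℤ) : ℚ) 0 k := by
    rw [S]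
    refine sum_congr rfl fun k _ => ?_
    have hne : ∀ i : ℕ, (((-1 : ℤ) : ℚ)) / 3 + i ≠ 0 := fun i hi => by
      have h6 : (3 * i : ℚ) = 1 := by push_cast at hi; linarith
      have h7 : 3 * i = 1 := by exact_mod_cast h6
      omega
    rw [← term_eq _ k hne]
    have g1 : (((-1 : ℤ) : ℚ)) / 3 = -1 / 3 := by norm_num
    have g2 : 2 * (((-1 : ℤ) : ℚ)) / 3 = -2 / 3 := by norm_num
    rw [g1, g2]
    have g3 : (6 * (k : ℚ) + ((-1 : ℤ) : ℚ)) = 6 * k - 1 := by push_cast; ring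
    rw [g3]
    rfl
  rw [e]
  exact h

end Pool.Agent.Results.MP_e70f96_nt.SixKMinusOne
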